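import Pool.Agent.Helper37.RC.Com

/-!
# Module G3 of track A (MP_b21509): the regime `S ≥ 3/2`
-/

set_option autoImplicit false

open MeasureTheory Set Filter Metric

namespace Pool.Agent.Helper98.RC

open Helper49.LT Helper49.RC Helper87.RC Helper44.RC Helper56.RC
open Pool.Agent.Helper37.RC.Com

/-- scalar inequality -/
theorem scal {r S x s : ℝ} (hr1 : 1.7320508 ≤ r) (hr2 : r ≤ 1.7320509) (hs0 : 0 ≤ s) (hs1 : s ≤ 1)
    (hx : x ^ 2 ≤ s ^ 2) (hS1 : 3 / 2 ≤ S) (hS2 : S ≤ 1 + 3 * s + x) :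
    0 ≤ 5 + 2 * r - 891 / 100 + (1 + r) * S - 1 / 2 * S ^ 2 + (5 / 2 - r) * S * x + (4 - 3 * r) * x
      + 99 / 10 * x ^ 2 - 3 / 10 * s ^ 2 - 5 / 4 * (s ^ 2) ^ 2 := by
  set U := 1 + 3 * s + x with hU
  have hx1 : x ≤ s := abs_le_of_sq_le_sq' hx hs0 |>.2
  have hx0 : -s ≤ x := abs_le_of_sq_le_sq' hx hs0 |>.1
  have hs2 : s ^ 2 ≤ 1 := by nlinarith
  have hs4 : (s ^ 2) ^ 2 ≤ 1 := by nlinarith [sq_nonneg s]
  have f1 : 0 ≤ (-3535 / 1000 + 35 / 10 * r) + (775 / 100 - 45 / 10 * r) * x + 99 / 10 * x ^ 2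
      - 3 / 10 * s ^ 2 - 5 / 4 * (s ^ 2) ^ 2 := by
    have a1 : |775 / 100 - 45 / 10 * r| ≤ 1 / 10 := by rw [abs_le]; constructor <;> linarith
    have a2 : -(1 / 10) ≤ (775 / 100 - 45 / 10 * r) * x := by
      have := abs_mul (775 / 100 - 45 / 10 * r) x
      have b : |x| ≤ 1 := by rw [abs_le]; constructor <;> linarith
      have c : |775 / 100 - 45 / 10 * r| * |x| ≤ 1 / 10 * 1 :=
        mul_le_mul a1 b (abs_nonneg _) (by norm_num)
      have d := (abs_le.1 (this.le.trans c)).1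
      linarith
    nlinarith [sq_nonneg x]
  have f2 : 0 ≤ (-341 / 100 + 3 * r) + 3 * r * s - 48 / 10 * s ^ 2 - 5 / 4 * (s ^ 2) ^ 2
      + (65 / 10 - 3 * r) * x + (45 / 10 - 3 * r) * (x * s) + (119 / 10 - r) * x ^ 2 := by
    have b1 : s ^ 2 ≤ s := by nlinarith
    have b2 : (s ^ 2) ^ 2 ≤ s := by nlinarith [sq_nonneg s]
    have b3 : -(5196 / 1000) * (-s) ≤ 3 * r * s := by nlinarith
    have b4 : -(5 / 10) + (-(1 / 100)) ≤ (65 / 10 - 3 * r) * x + (45 / 10 - 3 * r) * (x * s) + (119 / 10 - r) * x ^ 2 := by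
      have c0 : 0 ≤ 1 - s := by linarith
      nlinarith [sq_nonneg (x + 7 / 100), mul_nonneg hs0 c0, sq_nonneg x, sq_nonneg (x * s), sq_nonneg (x - s), sq_nonneg (x + s)]
    nlinarith
  rcases eq_or_lt_of_le (hS1.trans hS2) with h | h
  · have : S = 3 / 2 := le_antisymm (by linarith) hS1
    rw [this]
    nlinarith [f1]
  · have key : (U - 3 / 2) * (5 + 2 * r - 891 / 100 + (1 + r) * S - 1 / 2 * S ^ 2 + (5 / 2 - r) * S * x
        + (4 - 3 * r) * x + 99 / 10 * x ^ 2 - 3 / 10 * s ^ 2 - 5 / 4 * (s ^ 2) ^ 2)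
        = (U - S) * ((-3535 / 1000 + 35 / 10 * r) + (775 / 100 - 45 / 10 * r) * x + 99 / 10 * x ^ 2
      - 3 / 10 * s ^ 2 - 5 / 4 * (s ^ 2) ^ 2)
        + (S - 3 / 2) * ((-341 / 100 + 3 * r) + 3 * r * s - 48 / 10 * s ^ 2 - 5 / 4 * (s ^ 2) ^ 2
      + (65 / 10 - 3 * r) * x + (45 / 10 - 3 * r) * (x * s) + (119 / 10 - r) * x ^ 2)
        + 1 / 2 * (S - 3 / 2) * (U - S) * (U - 3 / 2) := by
      rw [hU]; ring
    have p1 : 0 ≤ U - S := by linarith
    have p2 : 0 ≤ S - 3 / 2 := by linarith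
    have p3 : 0 < U - 3 / 2 := by linarith
    have : 0 ≤ (U - 3 / 2) * (5 + 2 * r - 891 / 100 + (1 + r) * S - 1 / 2 * S ^ 2 + (5 / 2 - r) * S * x
        + (4 - 3 * r) * x + 99 / 10 * x ^ 2 - 3 / 10 * s ^ 2 - 5 / 4 * (s ^ 2) ^ 2) := by
      rw [key]; positivity
    exact nonneg_of_mul_nonneg_right this p3

theorem gg_even {k : ℕ} (h : k % 2 = 0) : gg 1 k = 2 + Real.sqrt 3 := by
  have : Odd (k + 1) := by rw [Nat.odd_iff]; omega
  rw [gg, this.neg_one_pow]; ring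

theorem gg_odd {k : ℕ} (h : k % 2 = 1) : gg 1 k = 2 - Real.sqrt 3 := by
  have : Even (k + 1) := by rw [Nat.even_iff]; omega
  rw [gg, this.neg_one_pow]; ring

theorem blk_pos (k : ℕ) (hk : k ≠ 0) (u w : ℂ) :
    -(3 / 10) * (‖u‖ ^ 2 + ‖w‖ ^ 2) ≤ QB 1 (1 / 2) 0 0 k u w + 891 / 100 * (‖u‖ ^ 2 + ‖w‖ ^ 2) := by
  have r1 := s3_lo
  have r2 := s3_hi
  have r3 := s3_sq
  set r := Real.sqrt 3 with hr
  have hA : (2 + r + 1 / 2 * (-1)) ^ 2 ≤ 10.4462 := by nlinarith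
  have hB : (2 + r + 1 / 2 * 2) ^ 2 ≤ 22.3924 := by nlinarith
  have hC : (2 - r + 1 / 2 * (-1)) ^ 2 ≤ 0.06 := by nlinarith
  have hD : (2 - r + 1 / 2 * 2) ^ 2 ≤ 1.61 := by nlinarith
  have main : (2 * (k : ℝ) + 1) * ((2 * k + 1) + 2) / (8 * (1 / 2)) *
      ‖(((gg 1 k + 1 / 2 * chu k) / ((2 * k + 1) + 2) : ℝ) : ℂ) * u
        - (((gg 1 k + 1 / 2 * chw k) / (2 * k + 1) : ℝ) : ℂ) * (starRingEnd ℂ) w‖ ^ 2
      ≤ (921 / 100 + 1 / ((2 * k + 1) + 2)) * ‖u‖ ^ 2 + (921 / 100 - 1 / (2 * k + 1)) * ‖w‖ ^ 2 := by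
    have h6 : k % 6 < 6 := Nat.mod_lt _ (by norm_num)
    interval_cases h : k % 6
    · have e1 : chu k = -1 := by rw [chu, if_neg (by omega)]
      have e2 : chw k = 2 := by rw [chw, if_pos (by omega)]
      have e3 := gg_even (k := k) (by omega)
      have e4 : (6 : ℝ) ≤ k := by exact_mod_cast (by omega : 6 ≤ k)
      rw [e1, e2, e3]
      exact blk_gen (t0 := 13) (p1 := 0.284) (p2 := 0.708) (A2 := 10.4462) (C2 := 22.3924) (by norm_num)
        (by linarith) (by norm_num) (by norm_num) (by norm_num) (by norm_num) hA hB (by norm_num) (by norm_num)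
        (by norm_num) (by norm_num) (by norm_num) u w
    · have e1 : chu k = 2 := by rw [chu, if_pos (by omega)]
      have e2 : chw k = -1 := by rw [chw, if_neg (by omega)]
      have e3 := gg_odd (k := k) (by omega)
      have e4 : (1 : ℝ) ≤ k := by exact_mod_cast (by omega : 1 ≤ k)
      rw [e1, e2, e3]
      exact blk_gen (t0 := 3) (p1 := 0.5) (p2 := 0.5) (A2 := 1.61) (C2 := 0.06) (by norm_num)
        (by linarith) (by norm_num) (by norm_num) (by norm_num) (by norm_num) hD hC (by norm_num) (by norm_num)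
        (by norm_num) (by norm_num) (by norm_num) u w
    · have e1 : chu k = -1 := by rw [chu, if_neg (by omega)]
      have e2 : chw k = -1 := by rw [chw, if_neg (by omega)]
      have e3 := gg_even (k := k) (by omega)
      have e4 : (2 : ℝ) ≤ k := by exact_mod_cast (by omega : 2 ≤ k)
      rw [e1, e2, e3]
      exact blk_gen (t0 := 5) (p1 := 0.5) (p2 := 0.5) (A2 := 10.4462) (C2 := 10.4462) (by norm_num)
        (by linarith) (by norm_num) (by norm_num) (by norm_num) (by norm_num) hA hA (by norm_num) (by norm_num)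
        (by norm_num) (by norm_num) (by norm_num) u w
    · have e1 : chu k = -1 := by rw [chu, if_neg (by omega)]
      have e2 : chw k = 2 := by rw [chw, if_pos (by omega)]
      have e3 := gg_odd (k := k) (by omega)
      have e4 : (3 : ℝ) ≤ k := by exact_mod_cast (by omega : 3 ≤ k)
      rw [e1, e2, e3]
      exact blk_gen (t0 := 7) (p1 := 0.5) (p2 := 0.5) (A2 := 0.06) (C2 := 1.61) (by norm_num)
        (by linarith) (by norm_num) (by norm_num) (by norm_num) (by norm_num) hC hD (by norm_num) (by norm_num)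
        (by norm_num) (by norm_num) (by norm_num) u w
    · have e1 : chu k = 2 := by rw [chu, if_pos (by omega)]
      have e2 : chw k = -1 := by rw [chw, if_neg (by omega)]
      have e3 := gg_even (k := k) (by omega)
      have e4 : (4 : ℝ) ≤ k := by exact_mod_cast (by omega : 4 ≤ k)
      rw [e1, e2, e3]
      exact blk_gen (t0 := 9) (p1 := 0.61) (p2 := 0.36) (A2 := 22.3924) (C2 := 10.4462) (by norm_num)
        (by linarith) (by norm_num) (by norm_num) (by norm_num) (by norm_num) hB hA (by norm_num) (by norm_num)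
        (by norm_num) (by norm_num) (by norm_num) u w
    · have e1 : chu k = -1 := by rw [chu, if_neg (by omega)]
      have e2 : chw k = -1 := by rw [chw, if_neg (by omega)]
      have e3 := gg_odd (k := k) (by omega)
      have e4 : (5 : ℝ) ≤ k := by exact_mod_cast (by omega : 5 ≤ k)
      rw [e1, e2, e3]
      exact blk_gen (t0 := 11) (p1 := 0.5) (p2 := 0.5) (A2 := 0.06) (C2 := 0.06) (by norm_num)
        (by linarith) (by norm_num) (by norm_num) (by norm_num) (by norm_num) hC hC (by norm_num) (by norm_num)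
        (by norm_num) (by norm_num) (by norm_num) u w
  have e23 : (2 * (k : ℝ) + 1) + 2 = 2 * k + 3 := by ring
  rw [e23] at main
  have e : (2 * (k : ℝ) + 2) ^ 2 - 1 = (2 * k + 1) * (2 * k + 3) := by ring
  rw [QB, if_neg hk, e]
  simp only [sub_self, zero_mul, add_zero]
  linarith

theorem blk_zero (u w : ℂ) :
    9 * ‖u‖ ^ 2 + 69 / 10 * ‖w‖ ^ 2 ≤ QB 1 (1 / 2) 0 0 0 u w + 921 / 100 * (‖u‖ ^ 2 + ‖w‖ ^ 2) := by
  have r1 := s3_lo
  have r2 := s3_hi
  have r3 := s3_sq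
  have hg := gg_even (k := 0) (by norm_num)
  set r := Real.sqrt 3 with hr
  have h1 : (3 / 2 * ‖w‖ - 1 / 2 * ‖u‖) ^ 2 ≤ ‖(3 / 2 : ℂ) * (starRingEnd ℂ) w - (1 / 2 : ℂ) * u‖ ^ 2 := by
    have a : |‖(3 / 2 : ℂ) * (starRingEnd ℂ) w‖ - ‖(1 / 2 : ℂ) * u‖| ≤
        ‖(3 / 2 : ℂ) * (starRingEnd ℂ) w - (1 / 2 : ℂ) * u‖ := abs_norm_sub_norm_le _ _
    rw [norm_mul, norm_mul, Complex.norm_conj] at a
    have b1 : ‖(3 / 2 : ℂ)‖ = 3 / 2 := by norm_num
    have b2 : ‖(1 / 2 : ℂ)‖ = 1 / 2 := by norm_num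
    rw [b1, b2] at a
    calc (3 / 2 * ‖w‖ - 1 / 2 * ‖u‖) ^ 2 = |3 / 2 * ‖w‖ - 1 / 2 * ‖u‖| ^ 2 := (sq_abs _).symm
      _ ≤ _ := pow_le_pow_left₀ (abs_nonneg _) a 2
  have h2 : ‖(((gg 1 0 - 1 / 2 - 2) / 3 : ℝ) : ℂ) * u
      + ((2 - gg 1 0 - 2 * (1 / 2) : ℝ) : ℂ) * (starRingEnd ℂ) w‖ ^ 2 ≤ (411 / 1000 * ‖u‖ + 2733 / 1000 * ‖w‖) ^ 2 := by
    refine pow_le_pow_left₀ (norm_nonneg _) ?_ 2
    refine (norm_add_le _ _).trans ?_
    rw [norm_mul, norm_mul, Complex.norm_real, Complex.norm_real, Complex.norm_conj, hg, Real.norm_eq_abs,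
      Real.norm_eq_abs]
    have c1 : |(2 + r - 1 / 2 - 2) / 3| ≤ 411 / 1000 := by rw [abs_le]; constructor <;> linarith
    have c2 : |2 - (2 + r) - 2 * (1 / 2)| ≤ 2733 / 1000 := by rw [abs_le]; constructor <;> linarith
    exact add_le_add (mul_le_mul_of_nonneg_right c1 (norm_nonneg _)) (mul_le_mul_of_nonneg_right c2 (norm_nonneg _))
  rw [QB, if_pos rfl]
  simp only [sub_self, zero_mul, add_zero, Nat.cast_zero, mul_zero, zero_add]
  have hu := norm_nonneg u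
  have hw := norm_nonneg w
  nlinarith [sq_nonneg (‖u‖ - 119 / 100 * ‖w‖), sq_nonneg (‖u‖ - ‖w‖), mul_nonneg hu hw]

theorem cub (u w : ℂ) : ‖((gg 1 0 + 4 * (1 / 2) : ℝ) : ℂ) * (starRingEnd ℂ) w
    - (((gg 1 0 + 1 / 2) / 3 : ℝ) : ℂ) * u‖ ≤ 5733 / 1000 * ‖w‖ + 1411 / 1000 * ‖u‖ := by
  have r1 := s3_lo
  have r2 := s3_hi
  have hg := gg_even (k := 0) (by norm_num)
  set r := Real.sqrt 3 with hr
  refine (norm_sub_le _ _).trans ?_
  rw [norm_mul, norm_mul, Complex.norm_real, Complex.norm_real, Complex.norm_conj, hg, Real.norm_eq_abs,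
    Real.norm_eq_abs]
  have c1 : |2 + r + 4 * (1 / 2)| ≤ 5733 / 1000 := by rw [abs_le]; constructor <;> linarith
  have c2 : |(2 + r + 1 / 2) / 3| ≤ 1411 / 1000 := by rw [abs_le]; constructor <;> linarith
  exact add_le_add (mul_le_mul_of_nonneg_right c1 (norm_nonneg _)) (mul_le_mul_of_nonneg_right c2 (norm_nonneg _))

/-- MODULE G3 -/
theorem hG3 (h₁ : StLbt) (h₂ : StStp) (h₃ : StPar) : StG3 := by
  intro β P hA hb hS
  have hpi := Real.pi_pos
  obtain ⟨hQ, hL⟩ := h₁ β P hA hb 1 (1 / 2) 0 0 1 (by norm_num) le_rfl (by norm_num) le_rfl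
    (by rw [abs_zero]; linarith) norm_one
  obtain ⟨hE, hm, -, -, -⟩ := h₃ β P hA hb
  have hst := h₂ β P hA hb
  have hm1 := mB_le_one hA hb
  have hb1 := b1_le β
  have r1 := s3_lo
  have r2 := s3_hi
  simp only [sub_self, zero_mul, add_zero] at hL
  rw [FSc, F1c] at hL
  -- blocks
  have hblk := sum_blk hQ hE (-(3 / 10)) (891 / 100)
    (QB 1 (1 / 2) 0 0 0 (uu β 0) (ww β 0) + 921 / 100 * (‖uu β 0‖ ^ 2 + ‖ww β 0‖ ^ 2)) (fun k => by
      by_cases hk : k = 0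
      · subst hk
        rw [if_pos rfl]
        linarith
      · rw [if_neg hk, add_zero]
        exact blk_pos k hk _ _)
  have hz := blk_zero (uu β 0) (ww β 0)
  have hc := cub (uu β 0) (ww β 0)
  set r := Real.sqrt 3 with hr
  set T := ∑' k : ℕ, (‖uu β k‖ ^ 2 + ‖ww β k‖ ^ 2) with hT
  set TQ := ∑' k : ℕ, QB 1 (1 / 2) 0 0 k (uu β k) (ww β k) with hTQ
  set N := ‖((gg 1 0 + 4 * (1 / 2) : ℝ) : ℂ) * (starRingEnd ℂ) (ww β 0)
    - (((gg 1 0 + 1 / 2) / 3 : ℝ) : ℂ) * uu β 0‖ with hN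
  set A := ‖uu β 0‖
  set B := ‖ww β 0‖
  set y := ‖fc β 0‖
  set x := b1 β
  set m := mB β
  set S := SS β P
  have hT0 : 0 ≤ T := tsum_nonneg fun k => by positivity
  have hm0 : 0 ≤ m := by rw [hm]; positivity
  have hxy : x ^ 2 ≤ y ^ 2 := by
    have := sq_abs x
    have h0 := abs_nonneg x
    nlinarith
  have hxm : x ^ 2 ≤ m := by linarith
  have hs0 := Real.sqrt_nonneg m
  have hs2 := Real.sq_sqrt hm0
  have hs1 : Real.sqrt m ≤ 1 := Real.sqrt_le_one.2 hm1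
  have hsc := scal (r := r) (S := S) (x := x) (s := Real.sqrt m) r1 r2 hs0 hs1 (by rw [hs2]; exact hxm) hS (by linarith)
  rw [hs2] at hsc
  have hcm : m * N ≤ m * (5733 / 1000 * B + 1411 / 1000 * A) := mul_le_mul_of_nonneg_left hc hm0
  have hq : 0 ≤ 9 * A ^ 2 + 69 / 10 * B ^ 2 - m * (5733 / 1000 * B + 1411 / 1000 * A) + 5 / 4 * m ^ 2 := by
    nlinarith [sq_nonneg (A - 1411 / 18000 * m), sq_nonneg (B - 5733 / 13800 * m), sq_nonneg m]
  have e3 : (3 : ℝ) / (2 * (1 + 1 / 2)) = 1 := by norm_num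
  rw [e3] at hL
  have hr0 : (0 : ℝ) ≤ 2 - r := by linarith
  nlinarith [hL, hblk, hz, hcm, hq, hsc, hxy, mul_le_mul_of_nonneg_left hxy hr0]

end Pool.Agent.Helper98.RC
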